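import Mathlib
import Pool.Agent.Helper831.FinslerDef2
import Pool.Agent.Helper831.CylVol

open scoped Manifold ContDiff Topology

namespace Pool.Agent.Results.MP_03b7b7_gt.CompleteCylinder

open Pool.Agent.Helper831

/-- There is a Finsler metric on the cylinder `ℝ × S¹` which is irreversible, complete (forward and
backward), of finite Busemann-Hausdorff area, and which has no closed geodesic. It is
`√(dx² + (1 + x²) dθ²) + x dθ`. -/
theorem result : ∃ (M : Type) (_ : TopologicalSpace M) (_ : ChartedSpace (ℝ × ℝ) M)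
    (_ : IsManifold 𝓘(ℝ, ℝ × ℝ) ∞ M),
    Nonempty (Diffeomorph 𝓘(ℝ, ℝ × ℝ) (𝓘(ℝ, ℝ).prod (𝓡 1)) M (ℝ × Circle) ∞) ∧
    ∃ F : FinslerMetric (ℝ × ℝ) M,
      F.IsIrreversible ∧ F.IsComplete ∧ F.HasFiniteArea ∧ ¬ F.HasClosedGeodesic :=
  ⟨Cyl, inferInstance, inferInstance, inferInstance, ⟨cylDiffeo⟩, cylF, cyl_irreversible,
    cyl_complete, cyl_finite, cyl_no_closed⟩

end Pool.Agent.Results.MP_03b7b7_gt.CompleteCylinder
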